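import Pool.Agent.DPF.Stmts

/-!
# Squad DPF, rows CNT and DGA
-/

namespace Pool.Agent.DPF.H56

open Finset Pool.Agent.DPS

theorem card_ini {n L : ℕ} (h : L ≤ n) : (ini n L).card = L := by
  unfold ini
  have e : (univ : Finset (Fin n)).filter (fun x => x.val < L) =
      (univ : Finset (Fin L)).map (Fin.castLEEmb h) := by
    ext x
    rw [mem_filter, mem_map]
    constructor
    · rintro ⟨-, hx⟩
      exact ⟨⟨x.val, hx⟩, mem_univ _, by ext; rfl⟩
    · rintro ⟨y, -, rfl⟩
      exact ⟨mem_univ _, y.2⟩
  rw [e, card_map, card_univ, Fintype.card_fin]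

theorem cnt : CNTStmt := by
  intro n k L E B hL hE hB
  have hEB : Disjoint E B := (hB.mono_right hE).symm
  have hcard : (E ∪ B).card = E.card + B.card := card_union_of_disjoint hEB
  unfold mm
  split_ifs with h
  · have hS : (univ \ (ini n L ∪ B)).card = n - L - B.card := by
      rw [card_sdiff_of_subset (subset_univ _), card_univ, Fintype.card_fin,
        card_union_of_disjoint hB.symm, card_ini hL, Nat.sub_sub]
    rw [← hS, ← card_powersetCard]
    refine card_nbij' (fun K => K \ (E ∪ B)) (fun T => T ∪ (E ∪ B)) ?_ ?_ ?_ ?_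
    · intro K hK
      obtain ⟨h1, h2, h3⟩ := mem_filter.1 (mem_coe.1 hK)
      obtain ⟨-, h4⟩ := mem_powersetCard.1 h1
      have hEK : E ⊆ K := by
        rw [← h2]
        exact inter_subset_left
      refine mem_coe.2 (mem_powersetCard.2 ⟨?_, ?_⟩)
      · intro x hx
        obtain ⟨h5, h6⟩ := mem_sdiff.1 hx
        rw [mem_union, not_or] at h6
        refine mem_sdiff.2 ⟨mem_univ _, ?_⟩
        rw [mem_union, not_or]
        refine ⟨fun h7 => h6.1 ?_, h6.2⟩
        rw [← h2]
        exact mem_inter.2 ⟨h5, h7⟩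
      · rw [card_sdiff_of_subset (union_subset hEK h3), h4, hcard, Nat.sub_sub]
    · intro T hT
      obtain ⟨h1, h2⟩ := mem_powersetCard.1 (mem_coe.1 hT)
      have hTd : Disjoint T (E ∪ B) := by
        rw [disjoint_left]
        intro x hx hx2
        have h3 := (mem_sdiff.1 (h1 hx)).2
        rw [mem_union, not_or] at h3
        rcases mem_union.1 hx2 with h4 | h4
        · exact h3.1 (hE h4)
        · exact h3.2 h4
      refine mem_coe.2 (mem_filter.2 ⟨mem_powersetCard.2 ⟨subset_univ _, ?_⟩, ?_, ?_⟩)
      · rw [card_union_of_disjoint hTd, h2, hcard]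
        omega
      · ext x
        rw [mem_inter, mem_union, mem_union]
        constructor
        · rintro ⟨h3 | h3 | h3, h4⟩
          · exfalso
            have h5 := (mem_sdiff.1 (h1 h3)).2
            rw [mem_union, not_or] at h5
            exact h5.1 h4
          · exact h3
          · exact absurd h4 (disjoint_left.1 hB h3)
        · intro h3
          exact ⟨Or.inr (Or.inl h3), hE h3⟩
      · intro x hx
        exact mem_union_right _ (mem_union_right _ hx)
    · intro K hK
      obtain ⟨h1, h2, h3⟩ := mem_filter.1 (mem_coe.1 hK)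
      have hEK : E ⊆ K := by
        rw [← h2]
        exact inter_subset_left
      exact sdiff_union_of_subset (union_subset hEK h3)
    · intro T hT
      obtain ⟨h1, h2⟩ := mem_powersetCard.1 (mem_coe.1 hT)
      have hTd : Disjoint T (E ∪ B) := by
        rw [disjoint_left]
        intro x hx hx2
        have h3 := (mem_sdiff.1 (h1 hx)).2
        rw [mem_union, not_or] at h3
        rcases mem_union.1 hx2 with h4 | h4
        · exact h3.1 (hE h4)
        · exact h3.2 h4
      exact union_sdiff_cancel_right hTd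
  · rw [card_eq_zero, filter_eq_empty_iff]
    rintro K hK ⟨h2, h3⟩
    obtain ⟨-, h4⟩ := mem_powersetCard.1 hK
    have hEK : E ⊆ K := by
      rw [← h2]
      exact inter_subset_left
    apply h
    rw [← hcard, ← h4]
    exact card_le_card (union_subset hEK h3)

theorem dga (hcnt : CNTStmt) : DGAStmt := by
  intro n k L 𝒜 A B hL h𝒜 hA hB
  have e : degree (fam k L 𝒜) (A ∪ B) =
      ((fam k L 𝒜).filter (fun K => A ∪ B ⊆ K)).card := rfl
  rw [e, card_eq_sum_card_fiberwise (f := fun K => K ∩ ini n L) (t := ov 𝒜 A)]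
  · refine sum_congr rfl fun E hE => ?_
    obtain ⟨h1, h2⟩ := mem_filter.1 hE
    rw [← hcnt n k L E B hL (h𝒜 E h1) hB]
    congr 1
    ext K
    rw [mem_filter, mem_filter, mem_filter, fam, mem_filter]
    constructor
    · rintro ⟨⟨⟨h3, h4⟩, h5⟩, h6⟩
      exact ⟨h3, h6, subset_union_right.trans h5⟩
    · rintro ⟨h3, h4, h5⟩
      have h6 : K ∩ ini n L = E := h4
      refine ⟨⟨⟨h3, h6 ▸ h1⟩, union_subset ?_ h5⟩, h6⟩
      have h7 : E ⊆ K := by
        rw [← h6]
        exact inter_subset_left
      exact h2.trans h7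
  · intro K hK
    obtain ⟨h3, h4⟩ := mem_filter.1 (mem_coe.1 hK)
    obtain ⟨h5, h6⟩ := mem_filter.1 h3
    refine mem_coe.2 (mem_filter.2 ⟨h6, ?_⟩)
    exact subset_inter (subset_union_left.trans h4) hA

end Pool.Agent.DPF.H56
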