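import Pool.Agent.DPF.StmtsM

/-!
Squad DPF, rows STA, DEL, FAC.
-/

namespace Pool.Agent.DPF.H56

open Finset Pool.Agent.DPS Pool.Agent.DPF

theorem sta : STAStmt := by
  intro k t L i e hL he
  refine ⟨?_, ?_, ?_⟩
  · intro h1
    simp only [Pool.Agent.DPF.sta]
    split_ifs <;> omega
  · intro h1 h2
    simp only [Pool.Agent.DPF.sta, dd]
    split_ifs <;> omega
  · intro h1 h2
    simp only [Pool.Agent.DPF.sta, dd]
    split_ifs <;> omega

/-- `2 ν = (t+1)(K+1) + (t-1)(h-2)` -/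
theorem nu_eq (T Lr kr : ℝ) : 2 * ((T + 1) * (kr - T + 1) - Lr) =
    (T + 1) * ((2 * kr - Lr - T) + 1) + (T - 1) * ((Lr - T + 1) - 2) := by ring

theorem basic (k t L : ℕ) (ht : 3 ≤ t) (hL : t + 2 ≤ L) (hk : L + t + 1 ≤ 2 * k) :
    (3 : ℝ) ≤ t ∧ (3 : ℝ) ≤ (L : ℝ) - t + 1 ∧ (1 : ℝ) ≤ 2 * (k : ℝ) - L - t ∧
    0 < ((t : ℝ) + 1) * ((k : ℝ) - t + 1) - L ∧
    ((t : ℝ) + 1) * (2 * (k : ℝ) - L - t) ≤ 2 * (((t : ℝ) + 1) * ((k : ℝ) - t + 1) - L) := by
  have h1 : (3 : ℝ) ≤ t := by exact_mod_cast ht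
  have h2 : (t : ℝ) + 2 ≤ L := by exact_mod_cast hL
  have h3 : (L : ℝ) + t + 1 ≤ 2 * k := by exact_mod_cast hk
  have h4 : (3 : ℝ) ≤ (L : ℝ) - t + 1 := by linarith
  have h5 : (1 : ℝ) ≤ 2 * (k : ℝ) - L - t := by linarith
  have h6 := nu_eq (t : ℝ) L k
  have h7 : 0 ≤ ((t : ℝ) - 1) * (((L : ℝ) - t + 1) - 2) := mul_nonneg (by linarith) (by linarith)
  have h8 : 0 < ((t : ℝ) + 1) * ((2 * (k : ℝ) - L - t) + 1) := mul_pos (by linarith) (by linarith)
  refine ⟨h1, h4, h5, by linarith, ?_⟩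
  have h9 : ((t : ℝ) + 1) * ((2 * (k : ℝ) - L - t) + 1) =
      ((t : ℝ) + 1) * (2 * (k : ℝ) - L - t) + ((t : ℝ) + 1) := by ring
  linarith

theorem del_eq (k t L d : ℕ) : del k t L d =
    (((t : ℝ) + 1) * (2 * (k : ℝ) - L - t) / (2 * (((t : ℝ) + 1) * ((k : ℝ) - t + 1) - L))) *
      ((d : ℝ) / ((L : ℝ) - t + 1 + d)) := by
  unfold del
  rw [div_mul_div_comm]

theorem del' : DELStmt := by
  intro k t L ht hL hk
  obtain ⟨h1, h2, h3, h4, h5⟩ := basic k t L ht hL hk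
  have hc0 : 0 ≤ ((t : ℝ) + 1) * (2 * (k : ℝ) - L - t) /
      (2 * (((t : ℝ) + 1) * ((k : ℝ) - t + 1) - L)) :=
    div_nonneg (mul_nonneg (by linarith) (by linarith)) (by linarith)
  have hc1 : ((t : ℝ) + 1) * (2 * (k : ℝ) - L - t) /
      (2 * (((t : ℝ) + 1) * ((k : ℝ) - t + 1) - L)) ≤ 1 := by
    rw [div_le_one (by linarith)]; exact h5
  have hq : ∀ i : ℕ, 0 ≤ (i : ℝ) / ((L : ℝ) - t + 1 + i) := fun i => by
    have : (0 : ℝ) ≤ i := Nat.cast_nonneg i
    exact div_nonneg this (by linarith)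
  have hq1 : ∀ i : ℕ, (i : ℝ) / ((L : ℝ) - t + 1 + i) ≤ 1 := fun i => by
    have : (0 : ℝ) ≤ i := Nat.cast_nonneg i
    rw [div_le_one (by linarith)]; linarith
  refine ⟨h4, ?_, ?_, ?_, ?_⟩
  · unfold del; simp
  · intro i
    rw [del_eq, del_eq]
    apply mul_le_mul_of_nonneg_left _ hc0
    have hi : (0 : ℝ) ≤ i := Nat.cast_nonneg i
    push_cast
    rw [div_le_div_iff₀ (by linarith) (by linarith)]
    nlinarith
  · intro i
    rw [del_eq]
    exact mul_nonneg hc0 (hq i)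
  · intro i
    rw [del_eq]
    exact mul_le_one₀ hc1 (hq i) (hq1 i)

theorem fac2 (T h K d : ℝ) (hT : 3 ≤ T) (hh : 3 ≤ h) (hd0 : 0 ≤ d) (hd : d ≤ h - 2) :
    (T + 1) * h * (K + 1 + d) ≤
      ((T + 1) * (K + 1) + (T - 1) * (h - 2)) * (h + d) - (T + 1) * K * d := by
  have e1 : 0 ≤ (T - 3) * (h ^ 2 - 2 * h - d) := mul_nonneg (by linarith) (by nlinarith)
  have e2 : 0 ≤ 2 * h * (h - 2 - d) := mul_nonneg (by linarith) (by linarith)
  nlinarith

theorem fac (DEL : DELStmt) : FACStmt := by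
  intro k t L ht hL hk
  obtain ⟨h1, h2, h3, h4, h5⟩ := basic k t L ht hL hk
  obtain ⟨-, -, -, hd0, hd1⟩ := DEL k t L ht hL hk
  have hke : ∀ e : ℕ, e < k → 0 < (k : ℝ) - e := fun e he => by
    have : (e : ℝ) < k := by exact_mod_cast he
    linarith
  refine ⟨?_, ?_, ?_, ?_⟩
  · intro e he
    unfold s0
    exact div_pos h4 (hke e he)
  · intro e e' hee he'
    unfold s0
    have h6 : (e : ℝ) ≤ e' := by exact_mod_cast hee
    apply div_le_div_of_nonneg_left h4.le (hke e' he')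
    linarith
  · intro e hte heL hek hbig
    have hdr : ((dd t L e : ℕ) : ℝ) = 2 * (e : ℝ) - (L + t - 1) := by
      have h6 : (dd t L e) + (L + t) = 2 * e + 1 := by unfold dd; omega
      have h7 : ((dd t L e : ℕ) : ℝ) + ((L : ℝ) + t) = 2 * e + 1 := by exact_mod_cast h6
      linarith
    have hd1' : (1 : ℝ) ≤ (dd t L e : ℕ) := by
      have : 1 ≤ dd t L e := by unfold dd; omega
      exact_mod_cast this
    set d : ℝ := ((dd t L e : ℕ) : ℝ) with hd
    have hKd : (2 * (k : ℝ) - L - t) + 1 - d = 2 * ((k : ℝ) - e) := by rw [hdr]; ring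
    have hpos := hke e hek
    rw [del_eq]
    unfold s0
    rw [← hd]
    have h8 : (((t : ℝ) + 1) * ((k : ℝ) - t + 1) - L) / ((k : ℝ) - e) *
        (((t : ℝ) + 1) * (2 * (k : ℝ) - L - t) / (2 * (((t : ℝ) + 1) * ((k : ℝ) - t + 1) - L)) *
          (d / ((L : ℝ) - t + 1 + d))) =
        ((t : ℝ) + 1) * d / ((L : ℝ) - t + 1 + d) *
          ((2 * (k : ℝ) - L - t) / (2 * ((k : ℝ) - e))) := by
      have e1 : ((t : ℝ) + 1) * ((k : ℝ) - t + 1) - L ≠ 0 := h4.ne'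
      have e2 : (k : ℝ) - e ≠ 0 := hpos.ne'
      have e3 : (L : ℝ) - t + 1 + d ≠ 0 := by linarith
      field_simp
    rw [h8]
    have h9 : 1 ≤ (2 * (k : ℝ) - L - t) / (2 * ((k : ℝ) - e)) := by
      rw [one_le_div (by linarith)]
      linarith
    have h10 : 0 ≤ ((t : ℝ) + 1) * d / ((L : ℝ) - t + 1 + d) :=
      div_nonneg (mul_nonneg (by linarith) (by linarith)) (by linarith)
    exact le_mul_of_one_le_right h10 h9
  · intro e hte heL hek
    have hdle : dd t L e + t + 1 ≤ L := by unfold dd; omega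
    have hdle' : ((dd t L e : ℕ) : ℝ) ≤ (L : ℝ) - t + 1 - 2 := by
      have : ((dd t L e : ℕ) : ℝ) + t + 1 ≤ L := by exact_mod_cast hdle
      linarith
    have hdk : 2 * ((k : ℝ) - e) ≤ (2 * (k : ℝ) - L - t) + 1 + (dd t L e : ℕ) := by
      have h6 : L + t ≤ 2 * e + 1 + dd t L e := by unfold dd; omega
      have h7 : (L : ℝ) + t ≤ 2 * e + 1 + (dd t L e : ℕ) := by exact_mod_cast h6
      linarith
    have hdn : (0 : ℝ) ≤ (dd t L e : ℕ) := Nat.cast_nonneg _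
    have hdd1 := hd1 (dd t L e)
    have hdel := del_eq k t L (dd t L e)
    set d : ℝ := ((dd t L e : ℕ) : ℝ) with hd
    set D := del k t L (dd t L e) with hD
    have hpos := hke e hek
    have hX := fac2 (t : ℝ) ((L : ℝ) - t + 1) (2 * (k : ℝ) - L - t) d h1 h2 hdn hdle'
    rw [← nu_eq] at hX
    set ν := ((t : ℝ) + 1) * ((k : ℝ) - t + 1) - L with hν
    set K := 2 * (k : ℝ) - L - t with hK
    set h := (L : ℝ) - t + 1 with hh
    have h8 : ν / ((k : ℝ) - e) ≥ 2 * ν / (K + 1 + d) := by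
      rw [ge_iff_le, div_le_div_iff₀ (by linarith) hpos]
      nlinarith
    have h9 : s0 k t L e = ν / ((k : ℝ) - e) := rfl
    rw [h9]
    calc ((t : ℝ) + 1) * h / (h + d) ≤ 2 * ν / (K + 1 + d) * (1 - D) := by
          have h10 : 1 - D = (2 * ν * (h + d) - ((t : ℝ) + 1) * K * d) / (2 * ν * (h + d)) := by
            rw [hdel]
            have e1 : ν ≠ 0 := h4.ne'
            have e3 : h + d ≠ 0 := by linarith
            field_simp
          rw [h10, div_mul_div_comm, div_le_div_iff₀ (by linarith) (by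
            apply mul_pos (by linarith)
            exact mul_pos (by linarith) (by linarith))]
          have h11 : 0 ≤ 2 * ν * (h + d) := mul_nonneg (by linarith) (by linarith)
          nlinarith [mul_le_mul_of_nonneg_left hX h11]
      _ ≤ ν / ((k : ℝ) - e) * (1 - D) := mul_le_mul_of_nonneg_right h8 (by linarith)

end Pool.Agent.DPF.H56
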