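import Pool.Agent.DPF.StmtsM

/-!
Squad DPF, row YPT.
-/

namespace Pool.Agent.DPF.H56

open Finset Pool.Agent.DPS Pool.Agent.DPF

/-- tangent inequality for the square of the positive part -/
theorem tang (u c : ℝ) (hc : 0 ≤ c) : 2 * c * u - c ^ 2 ≤ (max u 0) ^ 2 := by
  rcases le_total 0 u with h | h
  · rw [max_eq_left h]
    nlinarith [sq_nonneg (u - c)]
  · rw [max_eq_right h]
    nlinarith [mul_nonneg hc (neg_nonneg.mpr h), sq_nonneg c]

theorem ypt (WTS : WTSStmt) (DEL : DELStmt) (COE : COEStmt) : YPTStmt := by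
  intro k t L a M ω ht hL hk ha hm hω0 hω1 hω
  obtain ⟨hM0, hMs, hM1⟩ := hm
  obtain ⟨hν, hd0, hdm, hdp, hd1⟩ := DEL k t L ht hL hk
  have hL0 : (0 : ℝ) < L := by
    have : 0 < L := by omega
    exact_mod_cast this
  have haL : (a : ℝ) + 2 ≤ L := by exact_mod_cast ha
  have ha0 : (0 : ℝ) ≤ a := Nat.cast_nonneg a
  have htr : (3 : ℝ) ≤ t := by exact_mod_cast ht
  have hLr : (t : ℝ) + 2 ≤ L := by exact_mod_cast hL
  -- the weights
  have hw0 : ∀ i, 0 ≤ wt L (del k t L) i := fun i => by
    unfold wt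
    split_ifs
    · linarith [hd1 i]
    · linarith [hdm i]
  have hw1 : ∑ i ∈ range L, wt L (del k t L) i = 1 := by
    have := WTS L (del k t L) 0 1 1 (by omega) hd0
    simpa using this
  -- the masses
  have hx0 : ∀ e, 0 ≤ xe L a M e := fun e => by
    unfold xe
    by_cases h : M e = 0
    · rw [h, zero_mul]
    · have h1 := (hMs e h).1
      have h2 : (a : ℝ) < e := by exact_mod_cast h1
      exact mul_nonneg (hM0 e) (div_nonneg (by linarith) (by linarith))
  set X := ∑ e ∈ range L, xe L a M e with hX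
  have hX0 : 0 ≤ X := sum_nonneg fun e _ => hx0 e
  set p1 : ℝ := ((a : ℝ) + 1) / L with hp1
  set p2 : ℝ := ((L : ℝ) - a - 1) / L with hp2
  have hp10 : 0 < p1 := div_pos (by linarith) hL0
  have hp20 : 0 < p2 := div_pos (by linarith) hL0
  set P : ℝ := p1 * ω + p2 with hP
  set R : ℝ := p1 * ω ^ 2 + p2 with hR
  set S : ℝ := ((t : ℝ) + 1) * ((L : ℝ) - t + 1) / (2 * L) with hS
  have hP0 : 0 < P := by positivity
  have hR0 : 0 < R := by positivity
  have hp12 : p1 + p2 = 1 := by
    rw [hp1, hp2, ← add_div, div_eq_one_iff_eq hL0.ne']; ring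
  have hP1 : P ≤ 1 := by nlinarith
  have hS1 : 1 ≤ S := by
    rw [hS, one_le_div (by linarith)]
    nlinarith [mul_nonneg (by linarith : (0:ℝ) ≤ (t:ℝ) - 1) (by linarith : (0:ℝ) ≤ (L:ℝ) - t - 1)]
  -- coefficients
  set F : ℕ → ℕ → ℝ := fun i e =>
    (p1 * ω * (if Pool.Agent.DPF.sta k t L i e = 1 then s0 k t L e else 0) +
      p2 * (s0 k t L e * (if Pool.Agent.DPF.sta k t L i e = 0 then 0
        else if Pool.Agent.DPF.sta k t L i e = 1 then 1
          else ((L : ℝ) - e) / ((L : ℝ) - a - 1)))) with hF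
  set w : ℕ → ℝ := fun i => wt L (del k t L) i with hw
  set U : ℕ → ℝ := fun i => 1 + gA L a (s0 k t L) (Pool.Agent.DPF.sta k t L i) M with hU
  set V : ℕ → ℝ := fun i => 1 + gN L a (s0 k t L) (Pool.Agent.DPF.sta k t L i) M with hV
  have hUV : ∀ i, p1 * ω * U i + p2 * V i = P + ∑ e ∈ range L, xe L a M e * (F i e - P) := by
    intro i
    have h1 : ∑ e ∈ range L, xe L a M e * (F i e - P) =
        p1 * ω * gA L a (s0 k t L) (Pool.Agent.DPF.sta k t L i) M +
          p2 * gN L a (s0 k t L) (Pool.Agent.DPF.sta k t L i) M := by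
      unfold gA gN
      rw [mul_sum, mul_sum, ← sum_add_distrib]
      apply sum_congr rfl
      intro e _
      rw [hF, hP]
      ring
    rw [h1, hU, hV, hP]
    ring
  set M0 := ∑ i ∈ range L, w i * (p1 * ω * U i + p2 * V i) with hM0'
  have hMX : M0 = P + ∑ e ∈ range L, xe L a M e * (∑ i ∈ range L, w i * (F i e - P)) := by
    have h1 : ∀ e, xe L a M e * (∑ i ∈ range L, w i * (F i e - P)) =
        ∑ i ∈ range L, w i * (xe L a M e * (F i e - P)) := fun e => by
      rw [mul_sum]; apply sum_congr rfl; intro i _; ring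
    rw [sum_congr rfl fun e _ => h1 e, sum_comm]
    have h2 : ∑ i ∈ range L, w i * P = P := by rw [← sum_mul, hw1, one_mul]
    calc M0 = ∑ i ∈ range L, (w i * P + ∑ e ∈ range L, w i * (xe L a M e * (F i e - P))) := by
          rw [hM0']
          apply sum_congr rfl
          intro i _
          rw [hUV i, ← mul_sum]
          ring
      _ = P + ∑ i ∈ range L, ∑ e ∈ range L, w i * (xe L a M e * (F i e - P)) := by
          rw [sum_add_distrib, h2]
  have hMlow : P + (S - P) * X ≤ M0 := by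
    rw [hMX, hX, mul_sum]
    have : ∑ e ∈ range L, (S - P) * xe L a M e ≤
        ∑ e ∈ range L, xe L a M e * (∑ i ∈ range L, w i * (F i e - P)) := by
      apply sum_le_sum
      intro e _
      by_cases h : M e = 0
      · have : xe L a M e = 0 := by unfold xe; rw [h, zero_mul]
        rw [this]; simp
      · obtain ⟨h1, h2, h3, h4⟩ := hMs e h
        have hc := COE k t L a ω ht hL hk ha hω0 hω e h1 h2 h3 h4
        have h5 : ∑ i ∈ range L, w i * (F i e - P) = ∑ i ∈ range L, w i * F i e - P := by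
          have h2 : ∑ i ∈ range L, w i * P = P := by rw [← sum_mul, hw1, one_mul]
          calc ∑ i ∈ range L, w i * (F i e - P) = ∑ i ∈ range L, (w i * F i e - w i * P) := by
                apply sum_congr rfl
                intro i _
                ring
            _ = _ := by rw [sum_sub_distrib, h2]
        rw [h5, mul_comm]
        apply mul_le_mul_of_nonneg_left _ (hx0 e)
        have h6 : S ≤ ∑ i ∈ range L, w i * F i e := hc
        linarith
    linarith
  have hMp : 0 ≤ P + (S - P) * X := by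
    have := mul_nonneg (by linarith : 0 ≤ S - P) hX0
    linarith
  set c := M0 / R with hc
  have hc0 : 0 ≤ c := div_nonneg (hMp.trans hMlow) hR0.le
  have hmain : M0 ^ 2 / R ≤
      ∑ i ∈ range L, w i * (p1 * (max (U i) 0) ^ 2 + p2 * (max (V i) 0) ^ 2) := by
    calc M0 ^ 2 / R = 2 * c * M0 - c ^ 2 * R := by
          rw [hc]; field_simp; ring
      _ = ∑ i ∈ range L, w i * (2 * c * (p1 * ω * U i + p2 * V i) - c ^ 2 * R) := by
          have h1 : c ^ 2 * R = ∑ i ∈ range L, w i * (c ^ 2 * R) := by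
            rw [← sum_mul, hw1, one_mul]
          conv_lhs => rw [hM0', mul_sum, h1, ← sum_sub_distrib]
          apply sum_congr rfl
          intro i _
          ring
      _ ≤ _ := by
          apply sum_le_sum
          intro i _
          apply mul_le_mul_of_nonneg_left _ (hw0 i)
          have h1 := tang (U i) (ω * c) (mul_nonneg hω0 hc0)
          have h2 := tang (V i) c hc0
          have h3 := mul_le_mul_of_nonneg_left h1 hp10.le
          have h4 := mul_le_mul_of_nonneg_left h2 hp20.le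
          rw [hR]
          nlinarith
  -- conclusion
  have hb : (0 : ℝ) < (a : ℝ) + 1 := by linarith
  have hYQ : YQ t ((L : ℝ) - t + 1) ((L : ℝ) - a) ω X =
      ((L : ℝ) - a) / ((a : ℝ) + 1) * ((P + (S - P) * X) ^ 2 / R) := by
    have e1 : (L : ℝ) - t + 1 + t - (L - a) = a + 1 := by ring
    have e2 : (L : ℝ) - t + 1 + t - 1 = L := by ring
    have e3 : Pw t ((L : ℝ) - t + 1) ((L : ℝ) - a) ω = P := by
      unfold Pw
      rw [e1, e2, hP, hp1, hp2]
      ring
    have e4 : Rw t ((L : ℝ) - t + 1) ((L : ℝ) - a) ω = R := by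
      unfold Rw
      rw [e1, e2, hR, hp1, hp2]
      ring
    have e5 : Sw t ((L : ℝ) - t + 1) = S := by
      unfold Sw
      rw [e2, hS]
    unfold YQ
    rw [e3, e4, e5, e1]
  rw [hYQ]
  have hfin : ∑ i ∈ range L, wt L (del k t L) i *
        (((L : ℝ) - a) / L * (max (1 + gA L a (s0 k t L) (Pool.Agent.DPF.sta k t L i) M) 0) ^ 2 +
          ((L : ℝ) - a) * ((L : ℝ) - a - 1) / (L * ((a : ℝ) + 1)) *
            (max (1 + gN L a (s0 k t L) (Pool.Agent.DPF.sta k t L i) M) 0) ^ 2) =
      ((L : ℝ) - a) / ((a : ℝ) + 1) *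
        ∑ i ∈ range L, w i * (p1 * (max (U i) 0) ^ 2 + p2 * (max (V i) 0) ^ 2) := by
    rw [mul_sum]
    apply sum_congr rfl
    intro i _
    rw [hw, hU, hV, hp1, hp2]
    field_simp
  rw [hfin]
  apply mul_le_mul_of_nonneg_left _ (div_nonneg (by linarith) hb.le)
  refine le_trans ?_ hmain
  apply div_le_div_of_nonneg_right _ hR0.le
  exact pow_le_pow_left₀ hMp hMlow 2

end Pool.Agent.DPF.H56
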